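import Mathlib

/-!
# Module OnePar: solutions of a linear system depending polynomially on one parameter
-/

namespace Pool.Agent.H18.Ex

open Finset

/-- Division by the largest possible power of `X`. -/
theorem exists_eval_ne {α ρ : Type} (A : Finset α) (Mx : ρ → α → Polynomial ℂ) (a₀ : α)
    (ha₀ : a₀ ∈ A) : ∀ (n : ℕ) (F : α → Polynomial ℂ), (F a₀).natDegree = n → F a₀ ≠ 0 →
      (∀ r, ∑ a ∈ A, F a * Mx r a = 0) →
      ∃ F : α → Polynomial ℂ, (∀ r, ∑ a ∈ A, F a * Mx r a = 0) ∧ ∃ a ∈ A, (F a).eval 0 ≠ 0 := by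
  intro n
  induction n with
  | zero =>
    intro F hd hne hF
    refine ⟨F, hF, a₀, ha₀, ?_⟩
    rw [Polynomial.eq_C_of_natDegree_eq_zero hd] at hne ⊢
    rw [Polynomial.eval_C]
    intro h
    rw [h, Polynomial.C_0] at hne
    exact hne rfl
  | succ n ih =>
    intro F hd hne hF
    by_cases hz : ∃ a ∈ A, (F a).eval 0 ≠ 0
    · exact ⟨F, hF, hz⟩
    · push Not at hz
      have hdiv : ∀ a ∈ A, F a = (F a).divX * Polynomial.X := by
        intro a ha
        have h := hz a ha
        rw [← Polynomial.coeff_zero_eq_eval_zero] at h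
        conv_lhs => rw [← Polynomial.divX_mul_X_add (F a), h, Polynomial.C_0, add_zero]
      refine ih (fun a => (F a).divX) ?_ ?_ ?_
      · show (F a₀).divX.natDegree = n
        rw [Polynomial.natDegree_divX_eq_natDegree_tsub_one, hd]
        omega
      · intro h
        apply hne
        rw [hdiv a₀ ha₀]
        show (F a₀).divX * Polynomial.X = 0
        have h' : (F a₀).divX = 0 := h
        rw [h', zero_mul]
      · intro r
        have h := hF r
        have h2 : (∑ a ∈ A, (F a).divX * Mx r a) * Polynomial.X = 0 := by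
          rw [sum_mul, ← h]
          refine sum_congr rfl fun a ha => ?_
          conv_rhs => rw [hdiv a ha]
          ring
        rcases mul_eq_zero.1 h2 with h3 | h3
        · exact h3
        · exact absurd h3 Polynomial.X_ne_zero

/-- If a linear system with coefficients in `ℂ[t]` has a nonzero solution for every value of `t`,
then it has a polynomial solution which does not vanish at `t = 0`.

Proof.  Let `Frac` be the fraction field of `ℂ[X]`.  Case 1: the matrix `(r, a) ↦ Mx r a`
(`r : ρ`, `a : A`) has trivial kernel over `Frac`.  Then it has a left inverse `B` over `Frac`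
(`LinearMap.exists_leftInverse_of_injective`); clearing denominators gives a matrix `B'` over
`ℂ[X]` and `δ ≠ 0` with `B' * Mx = δ • 1`.  Take `t` with `δ.eval t ≠ 0` (`ℂ` is infinite):
then the system at `t` has only the zero solution, a contradiction.  Case 2: there is a nonzero
solution over `Frac`; clear denominators to get a nonzero solution `F` over `ℂ[X]`
(e.g. `IsLocalization.exist_integer_multiples_of_finset`).  Divide by the largest power of `X`
dividing all `F a`, `a ∈ A` (strong induction on the minimum, or on the sum, of the `natDegree`s of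
the nonzero `F a`: if all `F a`, `a ∈ A`, vanish at `0` replace `F a` by `(F a).divX`). -/
theorem exists_poly_solution {α ρ : Type} [Fintype ρ] (A : Finset α)
    (Mx : ρ → α → Polynomial ℂ)
    (h : ∀ t : ℂ, ∃ f : α → ℂ, (∀ r, ∑ a ∈ A, f a * (Mx r a).eval t = 0) ∧ ∃ a ∈ A, f a ≠ 0) :
    ∃ F : α → Polynomial ℂ, (∀ r, ∑ a ∈ A, F a * Mx r a = 0) ∧ ∃ a ∈ A, (F a).eval 0 ≠ 0 := by
  classical
  let K := FractionRing (Polynomial ℂ)
  let φ : Polynomial ℂ →+* K := algebraMap (Polynomial ℂ) K
  have hφ : Function.Injective φ := IsFractionRing.injective (Polynomial ℂ) K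
  let Mk : Matrix ρ A K := fun r a => φ (Mx r a.1)
  by_cases hker : LinearMap.ker Mk.mulVecLin = ⊥
  · exfalso
    obtain ⟨g, hg⟩ := LinearMap.exists_leftInverse_of_injective Mk.mulVecLin hker
    let B : Matrix A ρ K := LinearMap.toMatrix' g
    have hB : B * Mk = 1 := by
      have h1 : LinearMap.toMatrix' (g ∘ₗ Mk.mulVecLin) = 1 := by
        rw [hg, LinearMap.toMatrix'_id]
      rw [LinearMap.toMatrix'_comp] at h1
      rw [← h1]
      congr 1
      rw [← Matrix.toLin'_apply', LinearMap.toMatrix'_toLin']
    obtain ⟨δ, hδ⟩ := IsLocalization.exist_integer_multiples_of_finite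
      (nonZeroDivisors (Polynomial ℂ)) (fun x : A × ρ => B x.1 x.2)
    choose B' hB' using hδ
    have hδ0 : (δ : Polynomial ℂ) ≠ 0 := nonZeroDivisors.coe_ne_zero δ
    have key : ∀ a a' : A, ∑ r, B' (a, r) * Mx r a'.1 = if a = a' then (δ : Polynomial ℂ) else 0 := by
      intro a a'
      apply hφ
      rw [map_sum]
      have h1 : ∀ r, φ (B' (a, r) * Mx r a'.1) = φ δ * (B a r * Mk r a') := by
        intro r
        rw [map_mul]
        have h2 := hB' (a, r)
        rw [Algebra.smul_def] at h2
        rw [show φ (B' (a, r)) = φ δ * B a r from h2]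
        show φ δ * B a r * φ (Mx r a'.1) = φ δ * (B a r * φ (Mx r a'.1))
        ring
      rw [sum_congr rfl fun r _ => h1 r, ← mul_sum]
      have h3 : ∑ r, B a r * Mk r a' = (B * Mk) a a' := rfl
      rw [h3, hB, Matrix.one_apply]
      split_ifs with hh
      · rw [mul_one]
      · rw [mul_zero, map_zero]
    obtain ⟨t, ht⟩ : ∃ t : ℂ, (δ : Polynomial ℂ).eval t ≠ 0 := by
      by_contra hcon
      push Not at hcon
      apply hδ0
      exact Polynomial.funext fun t => by rw [hcon t, Polynomial.eval_zero]
    obtain ⟨f, hf, a, ha, hfa⟩ := h t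
    apply hfa
    have h4 : (δ : Polynomial ℂ).eval t * f a = 0 := by
      have h5 : ∑ a' : A, (∑ r, (B' (⟨a, ha⟩, r)).eval t * (Mx r a'.1).eval t) * f a'.1 = 0 := by
        simp only [sum_mul]
        rw [sum_comm]
        refine sum_eq_zero fun r _ => ?_
        have h6 := hf r
        rw [← sum_coe_sort A (fun a => f a * (Mx r a).eval t)] at h6
        have h7 : ∑ a' : A, (B' (⟨a, ha⟩, r)).eval t * (Mx r a'.1).eval t * f a'.1 =
            (B' (⟨a, ha⟩, r)).eval t * ∑ a' : A, f a'.1 * (Mx r a'.1).eval t := by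
          rw [mul_sum]
          exact sum_congr rfl fun a' _ => by ring
        rw [h7, h6, mul_zero]
      have h8 : ∀ a' : A, (∑ r, (B' (⟨a, ha⟩, r)).eval t * (Mx r a'.1).eval t) =
          if (⟨a, ha⟩ : A) = a' then (δ : Polynomial ℂ).eval t else 0 := by
        intro a'
        have h9 := congrArg (Polynomial.eval t) (key ⟨a, ha⟩ a')
        rw [Polynomial.eval_finsetSum] at h9
        simp only [Polynomial.eval_mul] at h9
        rw [h9]
        split_ifs
        · rfl
        · exact Polynomial.eval_zero
      rw [sum_congr rfl fun a' _ => by rw [h8 a']] at h5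
      rw [Finset.sum_eq_single (⟨a, ha⟩ : A)] at h5
      · rw [if_pos rfl] at h5
        exact h5
      · intro b _ hb
        rw [if_neg (fun h => hb h.symm), zero_mul]
      · intro hh
        exact absurd (mem_univ _) hh
    rcases mul_eq_zero.1 h4 with h5 | h5
    · exact absurd h5 ht
    · exact h5
  · obtain ⟨v, hv, hv0⟩ := (Submodule.ne_bot_iff _).1 hker
    rw [LinearMap.mem_ker, Matrix.mulVecLin_apply] at hv
    obtain ⟨a₀, ha₀⟩ : ∃ a, v a ≠ 0 := by
      by_contra hcon
      push Not at hcon
      exact hv0 (funext hcon)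
    obtain ⟨δ, hδ⟩ := IsLocalization.exist_integer_multiples_of_finite
      (nonZeroDivisors (Polynomial ℂ)) v
    choose F' hF' using hδ
    have hδ0 : (δ : Polynomial ℂ) ≠ 0 := nonZeroDivisors.coe_ne_zero δ
    let F : α → Polynomial ℂ := fun a => if ha : a ∈ A then F' ⟨a, ha⟩ else 0
    have hFa : ∀ a : A, φ (F a.1) = φ δ * v a := by
      intro a
      have h2 := hF' a
      rw [Algebra.smul_def] at h2
      show φ (if ha : a.1 ∈ A then F' ⟨a.1, ha⟩ else 0) = φ δ * v a
      rw [dif_pos a.2]
      exact h2
    refine exists_eval_ne A Mx a₀.1 a₀.2 _ F rfl ?_ ?_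
    · intro hz
      have h1 := hFa a₀
      rw [hz, map_zero] at h1
      rcases mul_eq_zero.1 h1.symm with h2 | h2
      · apply hδ0
        apply hφ
        rw [h2, map_zero]
      · exact ha₀ h2
    · intro r
      apply hφ
      rw [map_zero, map_sum, ← sum_coe_sort A (fun a => φ (F a * Mx r a))]
      have h1 : ∑ a : A, φ (F a.1 * Mx r a.1) = φ δ * ∑ a : A, Mk r a * v a := by
        rw [mul_sum]
        refine sum_congr rfl fun a _ => ?_
        rw [map_mul, hFa a]
        show φ δ * v a * φ (Mx r a.1) = φ δ * (φ (Mx r a.1) * v a)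
        ring
      rw [h1]
      have h2 : ∑ a : A, Mk r a * v a = Mk.mulVec v r := rfl
      rw [h2, hv]
      show φ δ * 0 = 0
      rw [mul_zero]

end Pool.Agent.H18.Ex
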